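import Pool.Agent.V8H64.FF.Mn

/-!
# The conjecture for the twists by `D P`, `D` fixed and `P` prime

Let `k` be a finite field of characteristic different from 2 in which `-1` is a square, and let `a`,
`b` be coprime polynomials over `k` such that `a`, `b`, `a - b` have the same degree `N` and none of
`a b`, `a (a - b)`, `b (a - b)` is a constant multiple of a square. Let

`E_D : y ^ 2 = x (x - a D) (x - b D)`

over `K = k(t)`, and let `Q_1, ..., Q_τ` be the monic irreducible divisors of `a b (a - b)` (the bad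
primes). A twist is a monic squarefree `D` prime to `a b (a - b)`; `omega D` is the number of its prime
factors.

Theorem. There is a function `t` with values in the natural numbers such that:

* for every twist `D` the proportion of the monic irreducible `P` of degree `n` for which `P` does not
  divide `D`, `E_{DP}` has non-split multiplicative reduction at all the bad primes, `E_{DP}(K)` is
  finite and the 2-primary part of the Tate-Shafarevich group of `E_{DP}` over `K` is zero, is at least
  `t(D) / 2 ^ (omega D + τ) - ε` for all large `n` with `deg D + n + N` odd;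
* `t(D) ≤ t(D')` if `D` divides `D'`;
* `t(D)` is congruent modulo 2 to the determinant of an explicit symmetric matrix of size `τ` over the
  field with two elements, which does not depend on `D`. So if this determinant is not zero, then
  `t(D) ≥ 1` for EVERY twist `D`;
* in any case `t(D) ≥ 1` for almost all twists `D`: for at least `1 - ε` of those of degree `m`, for all
  `ε > 0` and all large `m`.

The matrix. For a bad prime `Q` let `ord` be the parity of the exponent of `Q` in a polynomial and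
`t_Q = (ord a + ord b, ord a + ord (a - b))`; let `x ∧ y = x₁ y₂ + x₂ y₁` on `F₂ × F₂`, `[Q, Q'] = 0` if
`Q` is a square modulo `Q'` and `1` otherwise, `[c] = 0` if the constant `c` is a square and `1`
otherwise, and let `κ (y₁, y₂) = (y₁ α + y₂ (α + β), y₁ (α + γ) + y₂ α)` with `α`, `β`, `γ` the classes
`[c]` of the leading coefficients of `a`, `b`, `a - b`. The entries are
`δ_{Q Q'} + [Q, Q'] (t_Q ∧ t_{Q'}) + deg Q deg Q' (κ t_Q ∧ t_{Q'})`.
-/

set_option autoImplicit false
set_option linter.unusedSectionVars false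

namespace Pool.Agent.Results.MP_48b749_nt.PrimeMultiples

open Polynomial Filter Pool.Agent.TH115.GD
open scoped Classical

/-- The polynomial `f` is not a square modulo `Q` (in particular it is not divisible by `Q`). -/
def NonSquareMod {k : Type} [Field k] (Q f : k[X]) : Prop := ∀ h : k[X], ¬ Q ∣ h ^ 2 - f

/-- The polynomial `f` is not a constant multiple of a square. -/
def NotConstSquare {k : Type} [Field k] (f : k[X]) : Prop := ∀ (c : k) (h : k[X]), f ≠ C c * h ^ 2

/-- The monic squarefree polynomials `D` of degree `n` for which `b D` is not a square modulo the prime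
divisors of `a` and `a D` is not a square modulo the prime divisors of `b (a - b)`: `D` is prime to
`a b (a - b)` and `E_D` has non-split multiplicative reduction at all the bad primes. -/
def NonSplitTwists {k : Type} [Field k] (a b : k[X]) (n : ℕ) : Set k[X] :=
  {D | D.Monic ∧ D.natDegree = n ∧ Squarefree D ∧
    (∀ Q : k[X], Irreducible Q → Q ∣ a → NonSquareMod Q (b * D)) ∧
    (∀ Q : k[X], Irreducible Q → Q ∣ b * (a - b) → NonSquareMod Q (a * D))}

/-- The monic squarefree polynomials of degree `m` prime to `a b (a - b)`. -/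
def Twists {k : Type} [Field k] (a b : k[X]) (m : ℕ) : Set k[X] :=
  {D | D.Monic ∧ D.natDegree = m ∧ Squarefree D ∧ IsCoprime D (a * b * (a - b))}

/-- The monic irreducible polynomials of degree `n`. -/
def Primes (k : Type) [Field k] (n : ℕ) : Set k[X] :=
  {P | P.Monic ∧ Irreducible P ∧ P.natDegree = n}

/-- The number of monic irreducible divisors of `D`. -/
noncomputable def omega {k : Type} [Field k] (D : k[X]) : ℕ :=
  {P : k[X] | P.Monic ∧ Irreducible P ∧ P ∣ D}.ncard

/-- The curve `E_D : y ^ 2 = x (x - a D) (x - b D)` over `K = k(t)`. -/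
noncomputable def twist {k : Type} [Field k] (K : Type) [Field K] [Algebra k[X] K]
    (a b D : k[X]) : WeierstrassCurve K :=
  crv (algebraMap k[X] K (a * D)) (algebraMap k[X] K (b * D))

/-- The monic irreducible `P` of degree `n` for which `P` does not divide `D`, `E_{DP}` has non-split
multiplicative reduction at the bad primes, `E_{DP}(K)` is finite and the 2-primary part of the
Tate-Shafarevich group of `E_{DP}` over `K` is zero. -/
def GoodPrimes {k : Type} [Field k] (K : Type) [Field K] [Algebra k[X] K] [IsFractionRing k[X] K]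
    (a b D : k[X]) (n : ℕ) : Set k[X] :=
  {P ∈ Primes k n | ¬ P ∣ D ∧ D * P ∈ NonSplitTwists a b (D.natDegree + n) ∧
    Finite (Pt (twist K a b (D * P)) K) ∧ ShaTwo k (twist K a b (D * P))}

/-- `Q` enumerates the monic irreducible divisors of `f`. -/
def Enumerates {k : Type} [Field k] {ι : Type} (Q : ι → k[X]) (f : k[X]) : Prop :=
  Function.Injective Q ∧ ∀ P : k[X], (P.Monic ∧ Irreducible P ∧ P ∣ f) ↔ ∃ i, Q i = P

/-- The class of a constant modulo squares: `0` if `c` is a square and `1` otherwise. -/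
noncomputable def cls {k : Type} [Field k] (c : k) : ZMod 2 := if IsSquare c then 0 else 1

/-- The quadratic symbol: `0` if `f` is a square modulo `Q` and `1` otherwise. -/
noncomputable def sym {k : Type} [Field k] (f Q : k[X]) : ZMod 2 :=
  if ∃ h : k[X], Q ∣ h ^ 2 - f then 0 else 1

/-- The type of a bad prime: `(ord a + ord b, ord a + ord (a - b))`, `ord` the parity of the
exponent of `Q`. -/
noncomputable def typ {k : Type} [Field k] (a b Q : k[X]) : ZMod 2 × ZMod 2 :=
  ((multiplicity Q a : ZMod 2) + (multiplicity Q b : ZMod 2),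
    (multiplicity Q a : ZMod 2) + (multiplicity Q (a - b) : ZMod 2))

/-- The pairing `x ∧ y = x₁ y₂ + x₂ y₁`. -/
def wedge (x y : ZMod 2 × ZMod 2) : ZMod 2 := x.1 * y.2 + x.2 * y.1

/-- The map `κ` given by the leading coefficients. -/
noncomputable def kap {k : Type} [Field k] (a b : k[X]) (y : ZMod 2 × ZMod 2) : ZMod 2 × ZMod 2 :=
  (y.1 * cls a.leadingCoeff + y.2 * (cls a.leadingCoeff + cls b.leadingCoeff),
    y.1 * (cls a.leadingCoeff + cls (a - b).leadingCoeff) + y.2 * cls a.leadingCoeff)

/-- The matrix of the bad primes. -/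
noncomputable def badMatrix {k : Type} [Field k] {ι : Type} [DecidableEq ι] (a b : k[X])
    (Q : ι → k[X]) : Matrix ι ι (ZMod 2) :=
  Matrix.of fun i j => (if i = j then 1 else 0) +
    sym (Q i) (Q j) * wedge (typ a b (Q i)) (typ a b (Q j)) +
    ((Q i).natDegree : ZMod 2) * ((Q j).natDegree : ZMod 2) *
      wedge (kap a b (typ a b (Q i))) (typ a b (Q j))

section bridge

open Pool.Agent.Y164.PS Pool.Agent.V8H64.FF Finset

variable {k : Type} [Field k] [Fintype k]
variable {a b : k[X]} {N : ℕ} (H : Hyp a b N)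

theorem mu_eq {f Q : k[X]} (hf : f ≠ 0) (hm : Q.Monic) (hi : Irreducible Q) :
    multiplicity Q f = mu f Q := by
  apply multiplicity_eq_of_emultiplicity_eq_some
  rw [UniqueFactorizationMonoid.emultiplicity_eq_count_normalizedFactors hi hf,
    hm.normalize_eq_self]
  rfl

theorem cls_eq {c : k} (hc : c ≠ 0) : cls c = ch c := by
  have h := ch_eq_zero_iff hc
  rw [cls]
  split_ifs with h1
  · exact (h.2 h1).symm
  · have h2 : ch c ≠ 0 := fun h3 => h1 (h.1 h3)
    have h3 : ∀ x : ZMod 2, x ≠ 0 → 1 = x := by decide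
    exact h3 _ h2

theorem sym_eq (hk : ringChar k ≠ 2) {f Q : k[X]} (hm : Q.Monic) (hi : Irreducible Q)
    (h : ¬ Q ∣ f) : sym f Q = L f Q := by
  have h0 := L_eq_zero_iff hk hm hi h
  rw [sym]
  split_ifs with h1
  · exact (h0.2 h1).symm
  · have h2 : L f Q ≠ 0 := fun h3 => h1 (h0.1 h3)
    have h3 : ∀ x : ZMod 2, x ≠ 0 → 1 = x := by decide
    exact h3 _ h2

include H in
theorem det_eq {ι : Type} [Fintype ι] [DecidableEq ι] {Q : ι → k[X]}
    (hQ : Enumerates Q (a * b * (a - b))) :
    (badMatrix a b Q).det = (Pool.Agent.V8H64.FF.RR a b).det ∧ Fintype.card ι = Fintype.card (Tau a b) := by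
  have hmem : ∀ i, (Q i).Monic ∧ Irreducible (Q i) ∧ Q i ∣ a * b * (a - b) := fun i =>
    (hQ.2 (Q i)).2 ⟨i, rfl⟩
  let e : ι ≃ Tau a b := Equiv.ofBijective
    (fun i => (⟨Q i, (mem_bp H).2 (hmem i)⟩ : Tau a b)) (by
      constructor
      · intro i j h
        exact hQ.1 (Subtype.ext_iff.1 h)
      · rintro ⟨P, hP⟩
        obtain ⟨i, hi⟩ := (hQ.2 P).1 ((mem_bp H).1 hP)
        exact ⟨i, Subtype.ext hi⟩)
  have he : ∀ i, QQ a b (e i) = Q i := fun _ => rfl
  refine ⟨?_, Fintype.card_congr e⟩
  rw [← Matrix.det_submatrix_equiv_self e]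
  congr 1
  have hc : a - b ≠ 0 := sub_ne_zero.2 H.hab
  have htyp : ∀ i, typ a b (Q i) = tv a b (e i) := by
    intro i
    have h1 := hmem i
    rw [typ, tv, mu_eq H.ha h1.1 h1.2.1, mu_eq H.hb h1.1 h1.2.1, mu_eq hc h1.1 h1.2.1]
    rfl
  have hkap : ∀ y, kap a b y =
      ks (ch a.leadingCoeff, ch b.leadingCoeff, ch (a - b).leadingCoeff) y := by
    intro y
    rw [kap, ks, cls_eq (leadingCoeff_ne_zero.2 H.ha), cls_eq (leadingCoeff_ne_zero.2 H.hb),
      cls_eq (leadingCoeff_ne_zero.2 hc)]
  ext i j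
  show (if i = j then 1 else 0) + sym (Q i) (Q j) * om (typ a b (Q i)) (typ a b (Q j)) +
    ((Q i).natDegree : ZMod 2) * ((Q j).natDegree : ZMod 2) *
      om (kap a b (typ a b (Q i))) (typ a b (Q j)) = Pool.Agent.V8H64.FF.RR a b (e i) (e j)
  rw [Pool.Agent.V8H64.FF.RR, Matrix.of_apply, htyp, htyp, hkap, he, he]
  congr 2
  · by_cases h : i = j
    · rw [if_pos h, if_pos (by rw [h])]
    · rw [if_neg h, if_neg (fun h' => h (e.injective h'))]
  · by_cases h : i = j
    · rw [h, om_self, mul_zero, mul_zero]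
    · rw [sym_eq H.hk (hmem j).1 (hmem j).2.1]
      intro hd
      exact h (hQ.1 (eq_of_monic_of_associated (hmem j).1 (hmem i).1
        ((hmem j).2.1.associated_of_dvd (hmem i).2.1 hd)).symm)

include H in
theorem nb_iff {D : k[X]} : nb a b D ↔ IsCoprime D (a * b * (a - b)) := by
  constructor
  · intro h
    rw [← gcd_isUnit_iff]
    by_contra hu
    have h0 : gcd D (a * b * (a - b)) ≠ 0 := fun h0 => H.prod_ne ((gcd_eq_zero_iff _ _).1 h0).2
    obtain ⟨P, hP, hd⟩ := WfDvdMonoid.exists_irreducible_factor hu h0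
    have hm : (normalize P).Monic := monic_normalize hP.ne_zero
    have ha : Associated (normalize P) P := normalize_associated P
    have hi : Irreducible (normalize P) := ha.symm.irreducible hP
    have h1 : normalize P ∣ a * b * (a - b) :=
      ha.dvd.trans (hd.trans (gcd_dvd_right _ _))
    exact h ⟨normalize P, (mem_bp H).2 ⟨hm, hi, h1⟩⟩ (ha.dvd.trans (hd.trans (gcd_dvd_left _ _)))
  · intro h s hs
    exact (H.fam.irr s).not_isUnit (h.isUnit_of_dvd' hs ((mem_bp H).1 s.2).2.2)

end bridge

open Pool.Agent.Y164.PS Pool.Agent.V8H64.FF Finset in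
theorem result (k : Type) [Field k] [Finite k] (h2 : (2 : k) ≠ 0) (hi : IsSquare (-1 : k))
    (K : Type) [Field K] [Algebra k[X] K] [IsFractionRing k[X] K] (a b : k[X]) (N : ℕ)
    (hco : IsCoprime a b) (ha : a.natDegree = N) (hb : b.natDegree = N)
    (hab : (a - b).natDegree = N) (h₁ : NotConstSquare (a * b))
    (h₂ : NotConstSquare (a * (a - b))) (h₃ : NotConstSquare (b * (a - b)))
    (ι : Type) [Fintype ι] [DecidableEq ι] (Q : ι → k[X])
    (hQ : Enumerates Q (a * b * (a - b))) :
    ∃ t : k[X] → ℕ,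
      (∀ m : ℕ, ∀ D ∈ Twists a b m, ∀ ε : ℝ, 0 < ε → ∀ᶠ n : ℕ in atTop, Odd (m + n + N) →
        ((t D : ℝ) / 2 ^ (omega D + Fintype.card ι) - ε) * ((Primes k n).ncard : ℝ) ≤
          ((GoodPrimes K a b D n).ncard : ℝ)) ∧
      (∀ D D' : k[X], D' ≠ 0 → D ∣ D' → t D ≤ t D') ∧
      (∀ D : k[X], ((t D : ℕ) : ZMod 2) = (badMatrix a b Q).det) ∧
      ∀ ε : ℝ, 0 < ε → ∀ᶠ m : ℕ in atTop, (1 - ε) * ((Twists a b m).ncard : ℝ) ≤
        (({D ∈ Twists a b m | 1 ≤ t D}).ncard : ℝ) := by
  let _ : Fintype k := Fintype.ofFinite k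
  have ha0 : a ≠ 0 := by
    rintro rfl
    exact h₁ 0 0 (by simp)
  have hb0 : b ≠ 0 := by
    rintro rfl
    exact h₁ 0 0 (by simp)
  have hab0 : a ≠ b := by
    rintro rfl
    exact h₂ 0 0 (by simp)
  have hchar : ringChar k ≠ 2 := by
    intro h
    apply h2
    have := ringChar.Nat.cast_ringChar (R := k)
    rw [h] at this
    exact_mod_cast this
  have H : Hyp a b N := ⟨hchar, hi, ha0, hb0, hab0, hco, ha, hb, hab⟩
  have hq : 4 ≤ Fintype.card k := card_ge_four h2 hi
  have h2t := two_types H h₁ h₂ h₃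
  have hI : Imp H (Good K a b) := fun ι _ T hR hcl hN hT => good_of_triv (K := K) H hR hcl hN hT
  obtain ⟨hdet, hcard⟩ := det_eq H hQ
  refine ⟨fun D => tF H (pf D), ?_, ?_, ?_, ?_⟩
  · intro m D hD ε hε
    have hD0 : D ≠ 0 := hD.1.ne_zero
    have hDS : D ∈ Sf k m := mem_Sf.2 ⟨hD.1, hD.2.1, hD.2.2.1⟩
    have hnb : nb a b D := (nb_iff H).2 hD.2.2.2
    have hom : omega D = (pf D).card := by
      rw [omega, ← Set.ncard_coe_finset]
      congr 1
      ext P
      rw [Finset.mem_coe, mem_pf hD0]
      rfl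
    have hPr : ∀ n, (Primes k n).ncard = (Pr k n).card := by
      intro n
      rw [← Set.ncard_coe_finset]
      congr 1
      ext P
      rw [Finset.mem_coe, mem_Pr]
      rfl
    filter_upwards [prop_final H hDS hnb hI ε hε] with n hn hodd
    rw [hom, hcard, hPr]
    refine (hn hodd).trans ?_
    have hle : ((Pr k n).filter fun P => ¬ P ∣ D ∧ P2 (Good K a b) a b (P * D)).card ≤
        (GoodPrimes K a b D n).ncard := by
      rw [← Set.ncard_coe_finset]
      apply Set.ncard_le_ncard
      · intro P hP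
        rw [Finset.mem_coe, mem_filter, mem_Pr, P2, cla_iff H] at hP
        obtain ⟨⟨p1, p2, p3⟩, p4, ⟨p5, p6⟩, p7, p8⟩ := hP
        rw [mul_comm P D] at p5 p6 p7 p8
        refine ⟨⟨p1, p2, p3⟩, p4, ⟨hD.1.mul p1, ?_, ?_, p5, p6⟩, ?_, p7⟩
        · rw [hD.1.natDegree_mul p1, p3]
        · have hc : IsCoprime D P := coprime_of_not_dvd p2 p4
          exact squarefree_mul_iff.2 ⟨hc.isRelPrime, hD.2.2.1, p2.squarefree⟩
        · exact fin_points h2 (mul_ne_zero ha0 (mul_ne_zero hD0 p1.ne_zero))
            (mul_ne_zero hb0 (mul_ne_zero hD0 p1.ne_zero))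
            (fun h => hab0 (mul_right_cancel₀ (mul_ne_zero hD0 p1.ne_zero) h)) p8
      · apply Set.Finite.subset (Finset.finite_toSet (Pr k n))
        rintro P ⟨hP, -⟩
        exact mem_Pr.2 hP
    exact_mod_cast hle
  · intro D D' hD' hd
    apply (tF_mono H _).1
    intro P hP
    have hD0 : D ≠ 0 := fun h => hD' (by rw [h] at hd; exact zero_dvd_iff.1 hd)
    have h1 := (mem_pf hD0).1 hP
    exact (mem_pf hD').2 ⟨h1.1, h1.2.1, h1.2.2.trans hd⟩
  · intro D
    rw [hdet]
    exact tF_cast H (pf D)
  · intro ε hε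
    have e1 : ∀ m, (Twists a b m).ncard = ((Sf k m).filter (nb a b)).card := by
      intro m
      rw [← Set.ncard_coe_finset]
      congr 1
      ext D
      rw [Finset.mem_coe, mem_filter, mem_Sf, nb_iff H]
      show (_ ∧ _ ∧ _ ∧ _) ↔ _
      tauto
    have e2 : ∀ m, ({D ∈ Twists a b m | 1 ≤ tF H (pf D)}).ncard =
        ((Sf k m).filter fun D => nb a b D ∧ 0 < tF H (pf D)).card := by
      intro m
      rw [← Set.ncard_coe_finset]
      congr 1
      ext D
      rw [Finset.mem_coe, mem_filter, mem_Sf, nb_iff H]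
      show ((_ ∧ _ ∧ _ ∧ _) ∧ _) ↔ _
      rw [Nat.succ_le_iff]
      tauto
    filter_upwards [almost H hq h2t ε hε] with m hm
    rw [e1, e2]
    exact hm

end Pool.Agent.Results.MP_48b749_nt.PrimeMultiples
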