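import Pool.Agent.V8H7.BP.Wt
import Pool.Agent.V8H7.BP.Box

/-!
# The reductions modulo `p` of the elliptic curves over `ℚ(t)` with a rational point of order two

Let `n ≥ 2` and let `a`, `b` be in `ℤ[t]` with `deg a ≤ 2 n`, `deg b ≤ 4 n`. The curve

`E : y ^ 2 = x (x ^ 2 + a x + b)`

over `ℚ(t)` is an elliptic surface with a section of order two (every such surface over the projective
line has an equation of this form; its geometric genus is `n - 1` for general `a`, `b`). For a finite
field `k` of characteristic `p` we consider the reduction of `E` modulo `p` over `k(t)`.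

Theorem. (1) Let the pair `(a, b)` be generic: `a ≠ 0` and the Galois groups over `ℚ` of `b` and
`a ^ 2 - 4 b`, both of degree `4 n`, are the full symmetric groups. There is a set of primes `p` which has
a natural density at least `1 / (4 n - 1) ^ 2` such that for ALL the finite fields `k` with `p ^ m`
elements, `m` prime to `4 n - 1` (for example `k = F_p`), the curve `E` over `k(t)` is not isotrivial,
the `L`-function does not vanish at `1 / |k|`, and the rank is zero if it is at most the order (which is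
known).

(2) This is the case for 100% of the pairs `(a, b)`: for those with coefficients of absolute value at most
`H` the proportion tends to `1` as `H → ∞`.

The proof: Chebotarev's theorem for the splitting field of `b (a ^ 2 - 4 b)`. By a group theoretic lemma
there is an element of the Galois group which acts on the roots of `b` and on those of `a ^ 2 - 4 b` as a
cycle of length `4 n - 1` and one fixed point, whatever the relation between the two splitting fields.
For the primes with such a Frobenius element the polynomials `b` and `a ^ 2 - 4 b` are, over all these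
fields `k`, products of a linear and of an irreducible polynomial of odd degree `4 n - 1`. The order
of `L(T, E)` modulo two at `T = 1` is the number of these four factors minus four.
-/

set_option autoImplicit false
set_option linter.all false
set_option maxHeartbeats 1000000

open Polynomial Filter Topology Pool.Agent.W343.BSD Pool.Agent.W313.Gr

namespace Pool.Agent.Results.MP_48b749_nt.ReductionsModP

/-- The coefficient of `x` in the short form of `y ^ 2 = x (x ^ 2 + a x + b)` (replace `x` by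
`x - a / 3`). -/
def shortA {K : Type} [Field K] (a b : K) : K := b - a ^ 2 / 3

/-- The constant coefficient of the same short form. -/
def shortB {K : Type} [Field K] (a b : K) : K := 2 * a ^ 3 / 27 - a * b / 3

/-- The image of a polynomial with integral coefficients in `k(t)`. -/
noncomputable def red (k : Type) [Field k] (f : ℤ[X]) : RatFunc k :=
  algebraMap k[X] (RatFunc k) (f.map (Int.castRingHom k))

/-- The coefficient of `x` of the short form of `y ^ 2 = x (x ^ 2 + a x + b)` over `k(t)`. -/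
noncomputable def coeffA (k : Type) [Field k] (a b : ℤ[X]) : RatFunc k := shortA (red k a) (red k b)

/-- The constant coefficient of the short form of `y ^ 2 = x (x ^ 2 + a x + b)` over `k(t)`. -/
noncomputable def coeffB (k : Type) [Field k] (a b : ℤ[X]) : RatFunc k := shortB (red k a) (red k b)

/-- `y ^ 2 = x ^ 3 + A x + B` is an elliptic curve with a non-constant `j`-invariant
`6912 A ^ 3 / (4 A ^ 3 + 27 B ^ 2)`. -/
def NonIsotrivial (k : Type) {K : Type} [Field k] [Field K] [Algebra k K] (A B : K) : Prop :=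
  4 * A ^ 3 + 27 * B ^ 2 ≠ 0 ∧
    ∀ c : k, 6912 * A ^ 3 / (4 * A ^ 3 + 27 * B ^ 2) ≠ algebraMap k K c

/-- For the curve `y ^ 2 = x ^ 3 + A x + B`: if `L(T, E)` is `(1 - |k| T) ^ m G(T)` with `G` in `ℤ[T]`
then `m = 0`; if `L(T, E)` is a polynomial then its order `r` at `T = 1 / |k|` is `0`, and the rank is
`0` if it is at most this order. -/
def OrderAndRankZero (k : Type) {K : Type} [Field k] [Field K] [Algebra k K] (A B : K) : Prop :=
  (∀ m : ℕ, S.VanishesTo k A B m → m = 0) ∧
    ∀ r : ℕ, HasOrder k A B r → r = 0 ∧ (rank A B ≤ r → rank A B = 0)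

/-- The pair `(a, b)` is generic: `a ≠ 0` and the polynomials `b` and `a ^ 2 - 4 b` have degree `4 n` and
a Galois group over `ℚ` with `(4 n)!` elements. -/
structure Generic (n : ℕ) (a b : ℤ[X]) : Prop where
  ne_zero : a ≠ 0
  deg_a : a.natDegree ≤ 2 * n
  deg_b : b.natDegree = 4 * n
  deg_d : (a ^ 2 - 4 * b).natDegree = 4 * n
  gal_b : Nat.card (b.map (algebraMap ℤ ℚ)).Gal = (4 * n).factorial
  gal_d : Nat.card ((a ^ 2 - 4 * b).map (algebraMap ℤ ℚ)).Gal = (4 * n).factorial

/-- The conjecture holds with rank zero for the reduction modulo the prime `p ≥ 5` of the curve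
`y ^ 2 = x (x ^ 2 + a x + b)`, over all the fields `k` with `p ^ m` elements, `m` prime to
`4 n - 1`. -/
def RankZeroModulo (n : ℕ) (a b : ℤ[X]) (p : ℕ) : Prop :=
  p.Prime ∧ 5 ≤ p ∧ ∀ (k : Type) [Field k] [Finite k] [CharP k p] (m : ℕ), Nat.card k = p ^ m →
    Nat.Coprime m (4 * n - 1) →
      NonIsotrivial k (coeffA k a b) (coeffB k a b) ∧
      OrderAndRankZero k (coeffA k a b) (coeffB k a b)

/-- The set of primes `P` has the natural density `δ`. -/
def HasDensity (P : Set ℕ) (δ : ℝ) : Prop :=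
  Tendsto (fun x : ℕ => (({p ∈ P | p.Prime ∧ p ≤ x}.ncard : ℕ) : ℝ) / (Nat.primeCounting x : ℝ))
    atTop (𝓝 δ)

/-- The conclusion for one pair: a set of primes of density at least `1 / (4 n - 1) ^ 2`. -/
def PositiveDensity (n : ℕ) (a b : ℤ[X]) : Prop :=
  ∃ (P : Set ℕ) (δ : ℝ), 1 / (4 * (n : ℝ) - 1) ^ 2 ≤ δ ∧ HasDensity P δ ∧
    ∀ p ∈ P, RankZeroModulo n a b p

/-- The polynomial with given coefficients. -/
noncomputable def poly {r : ℕ} (c : Fin r → ℤ) : ℤ[X] := ∑ j : Fin r, C (c j) * X ^ (j : ℕ)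

/-- The pairs of coefficient vectors of polynomials of degree at most `2 n` and at most `4 n`. -/
abbrev Pairs (n : ℕ) : Type := (Fin (2 * n + 1) → ℤ) × (Fin (4 * n + 1) → ℤ)

/-- The pairs with coefficients of absolute value at most `H`. -/
def Box (n H : ℕ) : Set (Pairs n) := {y | (∀ j, |y.1 j| ≤ H) ∧ ∀ j, |y.2 j| ≤ H}

section proof

open Pool.Agent Pool.Agent.V8H7.BP

theorem sA_eq {K : Type} [Field K] (a b : K) : shortA a b = TH180.R4.tA 1 a b := by
  unfold shortA TH180.R4.tA; ring

theorem sB_eq {K : Type} [Field K] (a b : K) : shortB a b = TH180.R4.tB 1 a b := by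
  unfold shortB TH180.R4.tB; ring

theorem nonIso {k : Type} [Field k] [Finite k] {n : ℕ} (hn : 0 < n) {a b : ℤ[X]}
    (ha : a.natDegree ≤ 2 * n) (hb : b.natDegree ≤ 4 * n) (h : ModGood n a b k) :
    NonIsotrivial k (coeffA k a b) (coeffB k a b) := by
  have h' := nice_mod hn ha hb h
  have F3 : (3 : RatFunc k) ≠ 0 := TH180.R2.nz (TH180.R4.k23 h.six).2
  obtain ⟨s1, s2, s3⟩ := W309.RK.sb k
  have hf : Transcendental k (algebraMap k[X] (RatFunc k) X) := by
    apply TH180.R2.transc s2
    intro c hc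
    have : X = C c := RatFunc.algebraMap_injective k hc
    have h1 := congrArg natDegree this
    rw [natDegree_X, natDegree_C] at h1
    exact absurd h1 one_ne_zero
  have e : ∀ g : k[X], aeval (algebraMap k[X] (RatFunc k) X) g = algebraMap k[X] (RatFunc k) g := by
    intro g
    rw [aeval_algebraMap_apply, aeval_X_left_apply]
  have hΔ : 4 * coeffA k a b ^ 3 + 27 * coeffB k a b ^ 2 ≠ 0 := by
    unfold coeffA coeffB
    rw [sA_eq, sB_eq]
    have hd := TH180.R4.aeval_ne hf h'.d0
    have hb0 := TH180.R4.aeval_ne hf h'.b0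
    rw [e] at hd hb0
    rw [map_sub, map_pow, map_mul, map_ofNat] at hd
    exact TH180.R4.disc_ne F3 hb0 hd
  refine ⟨hΔ, fun c hc => ?_⟩
  have h1 := (div_eq_iff hΔ).1 hc
  have h2 := TH180.R4.noniso4 h.six h' hf c
  rw [e, e] at h2
  apply h2
  unfold coeffA coeffB at h1
  rw [sA_eq, sB_eq] at h1
  exact h1

theorem orderRank {k : Type} [Field k] [Finite k] {n : ℕ} (hn : 0 < n) {a b : ℤ[X]}
    (ha : a.natDegree ≤ 2 * n) (hb : b.natDegree ≤ 4 * n) (h : ModGood n a b k) :
    OrderAndRankZero k (coeffA k a b) (coeffB k a b) := by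
  have h0 : ∀ m : ℕ, S.VanishesTo k (coeffA k a b) (coeffB k a b) m → m = 0 := by
    intro m hm
    unfold coeffA coeffB at hm
    rw [sA_eq, sB_eq] at hm
    exact order_zero hn ha hb h m hm
  refine ⟨h0, fun r hr => ?_⟩
  obtain ⟨h1, h2⟩ := TH180.R4.concl4 (R := 0) (by simp) (fun m hm => (h0 m hm).le) r hr
  exact ⟨by omega, fun hle => by simpa using (h2 hle).2⟩

theorem generic_density (n : ℕ) (hn : 2 ≤ n) (a b : ℤ[X]) (h : Generic n a b) :
    PositiveDensity n a b := by
  classical
  have hinj : Function.Injective (algebraMap ℤ ℚ) := (algebraMap ℤ ℚ).injective_int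
  have hb : Full (4 * n) b := ⟨by rw [natDegree_map_eq_of_injective hinj, h.deg_b], h.gal_b⟩
  have hd : Full (4 * n) (a ^ 2 - 4 * b) :=
    ⟨by rw [natDegree_map_eq_of_injective hinj, h.deg_d], h.gal_d⟩
  obtain ⟨T, δ, h1, h2, h3⟩ := density hn h.deg_a h.ne_zero hb hd
  refine ⟨{p | p.Prime ∧ T p}, δ, ?_, ?_, ?_⟩
  · refine le_trans (le_of_eq ?_) h1
    rw [Nat.cast_sub (by omega)]
    push_cast
    rfl
  · refine h2.congr fun x => ?_
    unfold W401.Cheb.M
    congr 1
    rw [← Finset.sum_filter, Finset.sum_const, nsmul_eq_mul, mul_one]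
    congr 1
    rw [← Set.ncard_coe_finset]
    congr 1
    ext p
    simp only [Finset.coe_filter, Set.mem_setOf_eq, W401.Cheb.pr, Finset.mem_filter,
      Finset.mem_range]
    constructor
    · rintro ⟨⟨h4, h5⟩, h6⟩
      exact ⟨⟨h5, h6⟩, h5, by omega⟩
    · rintro ⟨⟨h4, h5⟩, -, h6⟩
      exact ⟨⟨by omega, h4⟩, h5⟩
  · rintro p ⟨hp, hT⟩
    haveI : Fact p.Prime := ⟨hp⟩
    refine ⟨hp, ?_, ?_⟩
    · have h4 := (h3 p hp hT (ZMod p) 1 (by rw [Nat.card_zmod, pow_one])
        (Nat.coprime_one_left _)).six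
      by_contra h5
      push Not at h5
      have h6 : p = 2 ∨ p = 3 := by
        have := hp.two_le
        have h7 : p ≠ 4 := by
          rintro rfl
          exact absurd hp (by norm_num)
        omega
      apply h4
      have h8 : ((6 : ℕ) : ZMod p) = 0 := by
        rw [ZMod.natCast_eq_zero_iff]
        rcases h6 with rfl | rfl
        · norm_num
        · norm_num
      exact_mod_cast h8
    · intro k _ _ _ m hm hcop
      have h4 := h3 p hp hT k m hm hcop
      exact ⟨nonIso (by omega) h.deg_a h.deg_b.le h4, orderRank (by omega) h.deg_a h.deg_b.le h4⟩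

/-- The vector of all the coefficients. -/
def toV {n : ℕ} (z : Pairs n) : Fin (2 * n + 1) ⊕ Fin (4 * n + 1) → ℤ := Sum.elim z.1 z.2

theorem toV_inj {n : ℕ} : Function.Injective (toV (n := n)) := by
  rintro ⟨a, b⟩ ⟨a', b'⟩ h
  exact Prod.ext (funext fun j => congrFun h (Sum.inl j)) (funext fun j => congrFun h (Sum.inr j))

theorem natDegree_poly {r : ℕ} (c : Fin (r + 1) → ℤ) : (poly c).natDegree ≤ r := by
  apply natDegree_sum_le_of_forall_le
  intro j _
  refine (natDegree_C_mul_X_pow_le _ _).trans ?_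
  have := j.2
  omega

theorem poly_ne {r : ℕ} {c : Fin r → ℤ} (h : c ≠ 0) : poly c ≠ 0 := by
  intro h0
  apply h
  funext j
  have h1 := congrArg (fun f => coeff f (j : ℕ)) h0
  simp only [poly, finset_sum_coeff, coeff_C_mul, coeff_X_pow, coeff_zero] at h1
  rw [Finset.sum_eq_single j] at h1
  · simpa using h1
  · intro i _ hij
    rw [if_neg (fun h => hij (Fin.ext h.symm)), mul_zero]
  · intro h
    exact absurd (Finset.mem_univ j) h

theorem image_box {n H : ℕ} (S : Set (Pairs n)) (T : Set (Fin (2 * n + 1) ⊕ Fin (4 * n + 1) → ℤ))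
    (hST : ∀ y, toV y ∈ T ↔ y ∈ S) :
    (X243.Tate.box (Fin (2 * n + 1) ⊕ Fin (4 * n + 1)) H ∩ T).ncard = (Box n H ∩ S).ncard := by
  rw [← Set.ncard_image_of_injective _ (toV_inj (n := n))]
  congr 1
  ext x
  constructor
  · rintro ⟨h1, h2⟩
    have e : toV (x ∘ Sum.inl, x ∘ Sum.inr) = x := by
      funext j
      rcases j with j | j <;> rfl
    refine ⟨(x ∘ Sum.inl, x ∘ Sum.inr), ⟨⟨fun j => h1 (Sum.inl j), fun j => h1 (Sum.inr j)⟩, ?_⟩, e⟩
    rw [← hST, e]
    exact h2
  · rintro ⟨y, ⟨⟨h1, h2⟩, h3⟩, rfl⟩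
    refine ⟨?_, (hST y).2 h3⟩
    rintro (j | j)
    · exact h1 j
    · exact h2 j

theorem hundred (n : ℕ) (hn : 2 ≤ n) :
    Tendsto (fun H : ℕ => (((Box n H ∩ {y | Generic n (poly y.1) (poly y.2) ∧
      PositiveDensity n (poly y.1) (poly y.2)}).ncard : ℕ) : ℝ) / (((Box n H).ncard : ℕ) : ℝ))
      atTop (𝓝 1) := by
  have h1 := dens_inter (dens_full n (by omega)) (dens_ne (2 * n + 1) (4 * n + 1) (by omega))
  have hup : ∀ H : ℕ, (((Box n H ∩ {y | Generic n (poly y.1) (poly y.2) ∧
      PositiveDensity n (poly y.1) (poly y.2)}).ncard : ℕ) : ℝ) / (((Box n H).ncard : ℕ) : ℝ) ≤ 1 := by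
    intro H
    apply div_le_one_of_le₀ _ (Nat.cast_nonneg _)
    have hfin : (Box n H).Finite := by
      have h2 := (X243.Tate.box_fin (ι := Fin (2 * n + 1) ⊕ Fin (4 * n + 1)) H)
      refine Set.Finite.of_finite_image (f := toV) (h2.subset ?_) toV_inj.injOn
      rintro _ ⟨y, ⟨h3, h4⟩, rfl⟩
      rintro (j | j)
      · exact h3 j
      · exact h4 j
    exact_mod_cast Set.ncard_le_ncard Set.inter_subset_left hfin
  refine tendsto_of_tendsto_of_tendsto_of_le_of_le h1 tendsto_const_nhds ?_ hup
  intro H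
  show _ / _ ≤ _ / _
  have e1 : (X243.Tate.box (Fin (2 * n + 1) ⊕ Fin (4 * n + 1)) H).ncard = (Box n H).ncard := by
    have := image_box (n := n) (H := H) Set.univ Set.univ (fun _ => Iff.rfl)
    rwa [Set.inter_univ, Set.inter_univ] at this
  rw [e1]
  apply div_le_div_of_nonneg_right _ (Nat.cast_nonneg _)
  have e2 : ∀ T : Set (Fin (2 * n + 1) ⊕ Fin (4 * n + 1) → ℤ),
      (X243.Tate.box (Fin (2 * n + 1) ⊕ Fin (4 * n + 1)) H ∩ T).ncard =
        (Box n H ∩ toV ⁻¹' T).ncard := fun T => image_box (toV ⁻¹' T) T (fun _ => Iff.rfl)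
  rw [e2]
  have hfin : (Box n H).Finite := by
    have h2 := (X243.Tate.box_fin (ι := Fin (2 * n + 1) ⊕ Fin (4 * n + 1)) H)
    refine Set.Finite.of_finite_image (f := toV) (h2.subset ?_) toV_inj.injOn
    rintro _ ⟨y, ⟨h3, h4⟩, rfl⟩
    rintro (j | j)
    · exact h3 j
    · exact h4 j
  refine Nat.cast_le.2 (Set.ncard_le_ncard ?_ (hfin.subset Set.inter_subset_left))
  rintro y ⟨hy, ⟨h2, h3⟩, h4⟩
  refine ⟨hy, ?_⟩
  have h5 : Full (4 * n) (poly y.2) := h2
  have h6 : Full (4 * n) (poly y.1 ^ 2 - 4 * poly y.2) := h3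
  have h7 : y.1 ≠ 0 := h4
  have hinj : Function.Injective (algebraMap ℤ ℚ) := (algebraMap ℤ ℚ).injective_int
  have hg : Generic n (poly y.1) (poly y.2) :=
    ⟨poly_ne h7, natDegree_poly _, (natDegree_map_eq_of_injective hinj _).symm.trans h5.1,
      (natDegree_map_eq_of_injective hinj _).symm.trans h6.1, h5.2, h6.2⟩
  exact ⟨hg, generic_density n hn _ _ hg⟩

end proof

/-- Let `n ≥ 2`. (1) For the generic pairs `(a, b)` of polynomials in `ℤ[t]` the conjecture of Birch and
Swinnerton-Dyer, with rank zero, holds for the reductions of `y ^ 2 = x (x ^ 2 + a x + b)` modulo the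
primes of a set of density at least `1 / (4 n - 1) ^ 2`, over all the fields of constants of degree
prime to `4 n - 1`. (2) The generic pairs are 100% of all the pairs with `deg a ≤ 2 n` and
`deg b ≤ 4 n`. -/
theorem result (n : ℕ) (hn : 2 ≤ n) :
    (∀ a b : ℤ[X], Generic n a b → PositiveDensity n a b) ∧
    Tendsto (fun H : ℕ => (((Box n H ∩ {y | Generic n (poly y.1) (poly y.2) ∧
      PositiveDensity n (poly y.1) (poly y.2)}).ncard : ℕ) : ℝ) / (((Box n H).ncard : ℕ) : ℝ))
      atTop (𝓝 1) :=
  ⟨generic_density n hn, hundred n hn⟩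

end Pool.Agent.Results.MP_48b749_nt.ReductionsModP
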