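import Pool.Agent.V8H26.YG.Out

/-!
# The law of the 2-Selmer groups of all the quadratic twists over `k(t)` of a curve with full 2-torsion,
# without any condition on the twist

Let `k` be a finite field of characteristic different from 2 in which `-1` is a square, and let `a`,
`b` be coprime polynomials over `k` such that `a`, `b`, `a - b` have the same degree and none of
`a b`, `a (a - b)`, `b (a - b)` is a constant multiple of a square. Let

`E_D : y ^ 2 = x (x - a D) (x - b D)`

be the quadratic twists of `E = E_1`, an elliptic curve over `K = k(t)` with all its points of order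
two rational. Every elliptic curve over `k(t)` with all its points of order two rational is a quadratic
twist of such a curve with coprime `a`, `b` (remove the common factor); the other two assumptions say that
it has good reduction or reduction of type `I₀*` at `∞` and no cyclic isogeny of degree 4 over `k̄(t)`. The
`E_D`, for all squarefree polynomials `D`, monic or not, are all the quadratic twists of `E`. We
consider all of them; there is no condition on `D`. The bad places of `E` other than `∞` are the monic
irreducible divisors `Q` of `F = a b (a - b)`. If `Q` does not divide `D`, the reduction of `E_D` at `Q`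
is multiplicative, namely `y ^ 2 = x ^ 2 (x - b D)` for `Q ∣ a`, `y ^ 2 = x ^ 2 (x - a D)` for `Q ∣ b`,
and `y ^ 2 = x (x - a D) ^ 2` for `Q ∣ a - b`; it is non-split when `b D`, respectively `a D`, is not a
square modulo `Q` (recall that `-1` is a square). If `Q` divides `D`, the reduction is additive. Write `|Q|`
for the number of the residue classes modulo `Q`, and

`δ = ∏_{Q ∣ F} 1 / (|Q| + 1)`,

the density of the multiples of all the `Q` among the squarefree polynomials.

Let `Sel E_D` be the 2-Selmer group: the pairs of classes `(u, w)` of `K* / K* ^ 2` such that, at every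
place `v` of `K`, `(u, w)` is the pair of classes of `(x(P), x(P) - a D)` for a point `P` of `E_D` over the
completion `K_v`. Put

`β r = 1 / 2 * ∏_{i ≥ 0} (1 - 2 ^ (-(2 i + 1))) * ∏_{j = 1}^{r} 2 / (2 ^ j - 1)`,

that is `0.2097..`, `0.4194..`, `0.2796..`, `0.0798..`, ...; the sum of the `β r` is `1`.

Theorem. As `n → ∞`, the proportion of the squarefree polynomials `D` of degree `n` for which the order
of `Sel E_D` is `2 ^ (r + 2)` converges to

`β r * (1 + (-1) ^ r δ)`, `r = 0, 1, 2, …`,

and these limits add up to `1`. The order of `Sel E_D` is `4` if and only if the group `E_D(K)` is finite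
and the 2-primary part of the Tate-Shafarevich group of `E_D` over `K` is zero (for every squarefree `D`
which does not divide `F`); so this happens for the proportion `β 0 * (1 + δ) > 0.2097` of all the quadratic
twists of `E`. For every squarefree `D` not dividing `F`, `r` has the parity of the number of the places
other than `∞` at which `E_D` has split multiplicative reduction. For given disjoint sets `Γ` and `T` of
primes of `F`, the squarefree `D` such that, among the primes of `F`, those at which `E_D` has additive
reduction are the ones in `Γ` and those at which it has split reduction are the ones in `T`, have the density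

`∏_{Q ∈ Γ} 1 / (|Q| + 1) * ∏_{Q ∉ Γ} |Q| / (2 (|Q| + 1))`,

and among them the proportion with a given `r` of the parity of `#T` converges to `2 β r`, whatever `Γ` and
`T` are.

So among the quadratic twists of `E` even `r` are more frequent than odd `r`, by the proportion `δ`:
this is the disparity of Klagsbrun, Mazur and Rubin, here with the exact law of the Selmer groups.

The theorem contains our `ExactSelmerLawOfTwists`, `SelmerLawOfAllTwists` and `SelmerLawOfEveryTwist`
(now in `Pool/Agent/V8H26/Old`), in which `D` was prime to `F` and `E_D` non-split at the primes of even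
multiplicity in `F`. For `Q ∣ D`, and for split reduction at a `Q` of even multiplicity, the elements of the
Selmer group have components at `Q` which are not determined by those at the prime divisors of `D`; the
random model (`V8H26/YG`) is a symmetric form on the sum of `(F₂ ^ 2) ^ ι`, `ι` the set of the prime
divisors of `D` not dividing `F`, and of a space attached to the primes of `F`. The numbers of squarefree
polynomials in the classes are in `V8H26/YG/Sqf`, `Den`, `Spl`. The symbols and the sieve are from the
project `Pool/Agent/Y164/PS`, the descent from `Pool/Agent/TH115/GD`.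
-/

set_option autoImplicit false
set_option linter.all false

namespace Pool.Agent.Results.MP_48b749_nt.SelmerLawOfAllQuadraticTwists

open Polynomial Filter Topology Pool.Agent.TH115.GD
open scoped Classical

/-- The polynomial `f` is not a square modulo `Q` (in particular it is not divisible by `Q`). -/
def NonSquareMod {k : Type} [Field k] (Q f : k[X]) : Prop := ∀ h : k[X], ¬ Q ∣ h ^ 2 - f

/-- The polynomial `f` is not a constant multiple of a square. -/
def NotConstSquare {k : Type} [Field k] (f : k[X]) : Prop := ∀ (c : k) (h : k[X]), f ≠ C c * h ^ 2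

/-- The twist by `D` has non-split multiplicative reduction at the divisor `Q` of `a b (a - b)`, which
does not divide `D`. -/
def NonSplitAt {k : Type} [Field k] (a b D Q : k[X]) : Prop :=
  (Q ∣ a ∧ NonSquareMod Q (b * D)) ∨ (Q ∣ b * (a - b) ∧ NonSquareMod Q (a * D))

/-- The squarefree polynomials of degree `n`, monic or not. -/
def Twists (k : Type) [Field k] (n : ℕ) : Set k[X] := {D | D.natDegree = n ∧ Squarefree D}

/-- The monic irreducible divisors of `a b (a - b)`. -/
def badPrimes {k : Type} [Field k] (a b : k[X]) : Set k[X] :=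
  {Q | Q.Monic ∧ Irreducible Q ∧ Q ∣ a * b * (a - b)}

/-- The monic irreducible divisors of `a b (a - b)` which divide `D`: the reduction of `E_D` is additive. -/
def additivePrimes {k : Type} [Field k] (a b D : k[X]) : Set k[X] :=
  {Q | Q.Monic ∧ Irreducible Q ∧ Q ∣ a * b * (a - b) ∧ Q ∣ D}

/-- The monic irreducible divisors of `a b (a - b)` at which the reduction of `E_D` is split
multiplicative. -/
def splitPrimes {k : Type} [Field k] (a b D : k[X]) : Set k[X] :=
  {Q | Q.Monic ∧ Irreducible Q ∧ Q ∣ a * b * (a - b) ∧ ¬ Q ∣ D ∧ ¬ NonSplitAt a b D Q}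

/-- The product of the `1 / (|Q| + 1)` over the monic irreducible divisors `Q` of `a b (a - b)`. -/
noncomputable def δ {k : Type} [Field k] (a b : k[X]) : ℝ :=
  ∏ᶠ Q ∈ badPrimes a b, 1 / ((Nat.card k : ℝ) ^ Q.natDegree + 1)

/-- The product of the `1 / (|Q| + 1)` for `Q ∈ Γ` and of the `|Q| / (2 (|Q| + 1))` for `Q ∉ Γ`, over
the monic irreducible divisors `Q` of `a b (a - b)`. -/
noncomputable def density {k : Type} [Field k] (a b : k[X]) (Γ : Set k[X]) : ℝ :=
  ∏ᶠ Q ∈ badPrimes a b, if Q ∈ Γ then 1 / ((Nat.card k : ℝ) ^ Q.natDegree + 1)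
    else (Nat.card k : ℝ) ^ Q.natDegree / (2 * ((Nat.card k : ℝ) ^ Q.natDegree + 1))

/-- The curve `E_D : y ^ 2 = x (x - a D) (x - b D)` over `K = k(t)`. -/
noncomputable def twist {k : Type} [Field k] (K : Type) [Field K] [Algebra k[X] K]
    (a b D : k[X]) : WeierstrassCurve K :=
  crv (algebraMap k[X] K (a * D)) (algebraMap k[X] K (b * D))

/-- The group `K* / K* ^ 2`. -/
abbrev ModSquares (K : Type) [Field K] : Type := Kˣ ⧸ (powMonoidHom 2 : Kˣ →* Kˣ).range

/-- `(u, w)` is the pair of classes modulo squares of `(x(P), x(P) - α)` for a point `P` over the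
extension `L` of `K` of the curve `y ^ 2 = x (x - α) (x - β)`; `d0` and `d1` are representatives of
these classes (`1` at infinity, `α β` for `x(P)` at the point `(0, 0)`, `α (α - β)` for `x(P) - α` at the
point `(α, 0)`). -/
def OfPoint {K : Type} [Field K] (L : Type) [Field L] [Algebra K L] (α β : K) (u w : K) : Prop :=
  ∃ (P : Pt (crv α β) L) (c₀ c₁ : L), c₀ ≠ 0 ∧ c₁ ≠ 0 ∧
    algebraMap K L u = c₀ ^ 2 * d0 (algebraMap K L α) (algebraMap K L β) P ∧
    algebraMap K L w = c₁ ^ 2 * d1 (algebraMap K L α) (algebraMap K L β) P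

/-- The 2-Selmer group of the curve `y ^ 2 = x (x - α) (x - β)` over `K = k(t)`: the pairs of classes
which come from a point over the completion of `K` at every place of `K`, the places being the
maximal ideals of `k[t]` and the place `t = ∞`. -/
def TwoSelmer (k : Type) {K : Type} [Field k] [Field K] [Algebra k[X] K] [IsFractionRing k[X] K]
    (α β : K) : Set (ModSquares K × ModSquares K) :=
  {c | ∃ u w : Kˣ, c = ((u : ModSquares K), (w : ModSquares K)) ∧
    (∀ v : IsDedekindDomain.HeightOneSpectrum k[X], OfPoint (Comp k[X] K v) α β u w) ∧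
    OfPoint (CompInf k K) α β u w}

/-- The order of the 2-Selmer group of `E_D`. -/
noncomputable def selmerOrder (k : Type) [Field k] (K : Type) [Field K] [Algebra k[X] K]
    [IsFractionRing k[X] K] (a b D : k[X]) : ℕ :=
  (TwoSelmer k (algebraMap k[X] K (a * D)) (algebraMap k[X] K (b * D))).ncard

/-- The numbers `β r`. -/
noncomputable def β (r : ℕ) : ℝ :=
  1 / 2 * (∏' i : ℕ, (1 - (1 / 2 : ℝ) ^ (2 * i + 1))) *
    ∏ j ∈ Finset.range r, 2 / ((2 : ℝ) ^ (j + 1) - 1)

theorem result (k : Type) [Field k] [Finite k] (h2 : (2 : k) ≠ 0) (hi : IsSquare (-1 : k))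
    (K : Type) [Field K] [Algebra k[X] K] [IsFractionRing k[X] K] (a b : k[X]) (N : ℕ)
    (hco : IsCoprime a b) (ha : a.natDegree = N) (hb : b.natDegree = N)
    (hab : (a - b).natDegree = N) (h₁ : NotConstSquare (a * b))
    (h₂ : NotConstSquare (a * (a - b))) (h₃ : NotConstSquare (b * (a - b))) :
    (∀ r : ℕ, Tendsto (fun n : ℕ =>
        (({D ∈ Twists k n | selmerOrder k K a b D = 2 ^ (r + 2)}).ncard : ℝ) /
          ((Twists k n).ncard : ℝ))
      atTop (𝓝 (β r * (1 + (-1) ^ r * δ a b)))) ∧
    Tendsto (fun n : ℕ => (({D ∈ Twists k n |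
          Finite (Pt (twist K a b D) K) ∧ ShaTwo k (twist K a b D)}).ncard : ℝ) /
        ((Twists k n).ncard : ℝ))
      atTop (𝓝 (β 0 * (1 + δ a b))) ∧
    (0.2097 < β 0 ∧ β 0 < 0.2098 ∧ 0 < δ a b ∧ HasSum β 1 ∧
      HasSum (fun r => β r * (1 + (-1) ^ r * δ a b)) 1) ∧
    (∀ D : k[X], Squarefree D → ¬ D ∣ a * b * (a - b) →
      (∃ r : ℕ, Even (r + (splitPrimes a b D).ncard) ∧ selmerOrder k K a b D = 2 ^ (r + 2)) ∧
      (selmerOrder k K a b D = 4 ↔
        Finite (Pt (twist K a b D) K) ∧ ShaTwo k (twist K a b D))) ∧
    ∀ Γ T : Set k[X], Γ ⊆ badPrimes a b → T ⊆ badPrimes a b → Disjoint Γ T →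
      Tendsto (fun n : ℕ => (({D ∈ Twists k n | additivePrimes a b D = Γ ∧
          splitPrimes a b D = T}).ncard : ℝ) / ((Twists k n).ncard : ℝ)) atTop
        (𝓝 (density a b Γ)) ∧
      ∀ r : ℕ, Even (r + T.ncard) → Tendsto (fun n : ℕ =>
          (({D ∈ Twists k n | additivePrimes a b D = Γ ∧ splitPrimes a b D = T ∧
            selmerOrder k K a b D = 2 ^ (r + 2)}).ncard : ℝ) /
          (({D ∈ Twists k n | additivePrimes a b D = Γ ∧ splitPrimes a b D = T}).ncard : ℝ))
        atTop (𝓝 (2 * β r)) := by
  obtain ⟨m1, m2, m3⟩ := Pool.Agent.V8H26.YG.finalG h2 hi K a b N hco ha hb hab h₁ h₂ h₃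
  have m4 := Pool.Agent.V8H26.YG.dlt_pos h2 hi a b N hco ha hb hab h₁ h₂ h₃
  have e1 : ∀ r, Pool.Agent.V8H26.YA.ga r = β r := Pool.Agent.V8H26.YA.ga_prod
  have e2 : Pool.Agent.V8H26.YA.ga = β := funext e1
  have m5 := Pool.Agent.V8H26.YG.law_sum (δ a b)
  have m6 := Pool.Agent.V8H26.YA.ga_sum
  rw [e2] at m1 m3 m5 m6
  have e3 : β 0 = Pool.Agent.V8H26.XL.cc / 2 := by
    rw [← e1]
    show (1 : ℝ) * Pool.Agent.V8H26.XL.cc / 2 = Pool.Agent.V8H26.XL.cc / 2
    rw [one_mul]
  have h0 : a * b * (a - b) ≠ 0 := by
    intro h
    rcases mul_eq_zero.1 h with h | h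
    · exact h₁ 0 0 (by rw [h, C_0, zero_mul])
    · exact h₂ 0 0 (by rw [h, mul_zero, C_0, zero_mul])
  refine ⟨m1, ?_, ⟨?_, ?_, m4, m6, m5⟩, m2, m3⟩
  · have m7 := m1 0
    rw [pow_zero, one_mul] at m7
    refine m7.congr' ?_
    filter_upwards [eventually_ge_atTop (3 * N + 1)] with n hn
    have e4 : {D ∈ Twists k n | selmerOrder k K a b D = 2 ^ (0 + 2)} =
        {D ∈ Twists k n | Finite (Pt (twist K a b D) K) ∧ ShaTwo k (twist K a b D)} := by
      ext D
      constructor
      · rintro ⟨h1, h3⟩
        have h5 := Pool.Agent.V8H26.YG.not_dvd_of_large ha hb hab h0 hn h1.1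
        exact ⟨h1, (m2 D h1.2 h5).2.1 h3⟩
      · rintro ⟨h1, h3⟩
        have h5 := Pool.Agent.V8H26.YG.not_dvd_of_large ha hb hab h0 hn h1.1
        exact ⟨h1, (m2 D h1.2 h5).2.2 h3⟩
    exact congrArg (fun s : Set k[X] => (s.ncard : ℝ) / ((Twists k n).ncard : ℝ)) e4
  · rw [e3]
    linarith [Pool.Agent.V8H26.XL.cc_num.1]
  · rw [e3]
    linarith [Pool.Agent.V8H26.XL.cc_num.2]

end Pool.Agent.Results.MP_48b749_nt.SelmerLawOfAllQuadraticTwists
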