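import Pool.Agent.V8H26.TD.Fin
import Pool.Agent.N874.HP.A8

/-!
# The order of the `L`-function modulo three and the class groups of the three-division fields

Let `k` be a finite field with `q` elements, `q` prime to `6` and congruent to `1` modulo three, `K` the
function field of a curve over `k` and `E : y ^ 2 = x ^ 3 + a x + b` ANY elliptic curve over `K`; the
Galois group may act on the points of order three in any way. We show that the square of `L(T, E)` is
congruent modulo three to the quotient of the zeta functions of the algebra of degree eight of the points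
of order three and of the quartic algebra of their abscissas, times an explicit finite product over the
places of bad reduction. So the order at `T = 1` of `L(T, E)` modulo three, which bounds the order of
vanishing at `T = 1 / q` and the rank, is half of an explicit invariant `threeOrder` of these algebras.
-/

set_option autoImplicit false
set_option linter.all false
set_option maxHeartbeats 4000000

open Polynomial Pool.Agent.W343.BSD Pool.Agent.W313.Gr Pool.Agent.V8H26.TD

namespace Pool.Agent.Results.MP_48b749_nt.ThreeDivisionFields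

/-- The rank is at least `R` and the order of vanishing of `L(T, E)` at `T = 1 / |k|` is at most `R`. If
the rank is at most the order then both are `R`. -/
def RankAndOrder (k : Type) {K : Type} [Field k] [Field K] [Algebra k K] (a b : K) (R : ℕ) : Prop :=
  R ≤ rank a b ∧ (∀ m : ℕ, S.VanishesTo k a b m → m ≤ R) ∧
    ∀ r : ℕ, HasOrder k a b r → r ≤ R ∧ (rank a b ≤ r → r = R ∧ rank a b = R)

/-- Let `N = threeOrder` for `E : y ^ 2 = x ^ 3 + a x + b` over `K`. If `L(T, E)` is a polynomial then
`N` is twice the multiplicity of its root `1` modulo three; in particular `N` is even and not negative,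
and `N = 0` if and only if the integer `L(1, E)` is prime to three. If `L(T, E) = (1 - q T) ^ m G(T)`
with `G` in `ℤ[T]` then `2 m ≤ N`. If the rank is at least `R` and `N ≤ 2 R + 1` then `RankAndOrder`
holds with this `R`. -/
def Conclusions (k : Type) {K : Type} [Field k] [Field K] [Algebra k K] (a b : K) (N : ℤ) : Prop :=
  (∀ P : ℤ[X], S.Lfun k a b = (P : PowerSeries ℤ) →
    N = 2 * muThree P ∧ (N = 0 ↔ ¬ (3 : ℤ) ∣ P.eval 1)) ∧
  (∀ m : ℕ, S.VanishesTo k a b m → 2 * (m : ℤ) ≤ N) ∧
  ∀ R : ℕ, R ≤ rank a b → N ≤ 2 * R + 1 → RankAndOrder k a b R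

section proof

open Pool.Agent Pool.Agent.H123R3.ZT

theorem card_mod {k : Type} [Field k] [Finite k] (hq : 3 ∣ Nat.card k - 1) :
    ((Nat.card k : ℕ) : ZMod 3) = 1 := by
  have h1 : 1 ≤ Nat.card k := Nat.card_pos
  have h2 := (ZMod.natCast_eq_zero_iff _ _).2 hq
  rw [Nat.cast_sub h1, Nat.cast_one] at h2
  linear_combination h2

theorem mu_zero_iff {P : ℤ[X]} (hP : P.map (Int.castRingHom (ZMod 3)) ≠ 0) :
    muThree P = 0 ↔ ¬ (3 : ℤ) ∣ P.eval 1 := by
  unfold muThree
  rw [rootMultiplicity_eq_zero_iff]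
  have e : eval 1 (P.map (Int.castRingHom (ZMod 3))) = ((P.eval 1 : ℤ) : ZMod 3) := by
    have := eval_map_apply (Int.castRingHom (ZMod 3)) (p := P) (x := (1 : ℤ))
    rw [map_one, eq_intCast] at this
    exact this
  have h3 : ((P.eval 1 : ℤ) : ZMod 3) = 0 ↔ (3 : ℤ) ∣ P.eval 1 :=
    ZMod.intCast_zmod_eq_zero_iff_dvd _ 3
  constructor
  · intro h hd
    have := h (by rw [IsRoot.def, e]; exact h3.2 hd)
    exact hP this
  · intro h hr
    rw [IsRoot.def, e] at hr
    exact absurd (h3.1 hr) h

theorem concl {k K : Type} [Field k] [Finite k] [Field K] [Algebra k K] [FF.IsFF k K]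
    (h6 : (6 : k) ≠ 0) (hq : ((Nat.card k : ℕ) : ZMod 3) = 1) {a b : K}
    (hΔ : 4 * a ^ 3 + 27 * b ^ 2 ≠ 0) {N : ℤ} {A R : (ZMod 3)[X]} (hA : A ≠ 0) (hR : R ≠ 0)
    (h : (A : PowerSeries (ZMod 3)) * redL 3 (S.Lfun k a b) ^ 2 = (R : PowerSeries (ZMod 3)))
    (hN : (mz R : ℤ) - mz A = N) : Conclusions k a b N := by
  have hone : ((1 : (ZMod 3)[X]) : PowerSeries (ZMod 3)) * redL 3 (1 : PowerSeries ℤ) ^ 2 =
      ((1 : (ZMod 3)[X]) : PowerSeries (ZMod 3)) := by
    rw [map_one, one_pow, mul_one]
  have hm1 : mz (1 : (ZMod 3)[X]) = 0 := rm_one 1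
  have hU : ∀ m : ℕ, S.VanishesTo k a b m → 2 * (m : ℤ) ≤ N := by
    rintro m ⟨G, hG⟩
    have := compare3 one_ne_zero one_ne_zero hA hR hone h hq (G := G) (m := m) (by
      rw [one_mul]; exact hG)
    rw [hm1] at this
    omega
  refine ⟨fun P hP => ?_, hU, fun R' hR' hle => ?_⟩
  · have h0 : P.map (Int.castRingHom (ZMod 3)) ≠ 0 := by
      intro h0
      rw [hP, redL_poly, h0, Polynomial.coe_zero, zero_pow two_ne_zero, mul_zero] at h
      exact hR (Polynomial.coe_injective _ (by rw [← h, Polynomial.coe_zero]))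
    have h1 := compare3 one_ne_zero one_ne_zero hA hR hone h hq (G := P) (m := 0) (by
      rw [pow_zero, one_mul, one_mul]; exact hP)
    rw [hm1] at h1
    have h2 : N = 2 * muThree P := by
      have e : mz (m3 P) = muThree P := rfl
      rw [e] at h1
      omega
    refine ⟨h2, ?_⟩
    rw [← mu_zero_iff h0, h2]
    omega
  · have hU' : ∀ m : ℕ, S.VanishesTo k a b m → m ≤ R' := fun m hm => by
      have := hU m hm
      omega
    exact ⟨hR', hU', fun r hr => TH180.R4.concl4 hR' hU' r hr⟩

end proof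

/-- **Three-division fields.** Let `K` and `K'`, an extension of `K`, be function fields of curves over
the finite field `k` with `q` elements, of characteristic at least `5`, `q` congruent to `1` modulo
three, and let `E : y ^ 2 = x ^ 3 + a x + b` be an elliptic curve over `K`. Let the fields `L i` and
`M i j` belong to the points of order three of `E` over `K` as in `IsThreeDivision`, and `L' i`, `M' i j`
to those of `E` over `K'`. Let `N` and `N'` be the numbers `threeOrder` for `E` over `K` and `K'`. Then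
`Conclusions` holds for `E` over `K` with `N` (and over `K'` with `N'`): twice the order of the
polynomial `L(T, E/K)` modulo three at `1` is `N`, the order of vanishing of `L(T, E/K)` at `1 / q` is at
most `N / 2`, and rank and order are `R` if the rank is between `R` and the order and `N ≤ 2 R + 1`.
If `L(T, E/K') = L(T, E/K) (1 - q T) ^ m G(T)` with an integral polynomial `G` then
`2 m ≤ N' - N`; if `N' ≤ N + 1`, the order of vanishing of `L(T, E/K')` at `1 / q` is that of
`L(T, E/K)`, and the rank conjecture for `E/K` implies that for `E/K'`. -/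
theorem result (k K K' : Type) [Field k] [Finite k] [Field K] [Algebra k K] [Field K']
    [Algebra k K'] [Algebra K K'] [IsScalarTower k K K'] (h6 : (6 : k) ≠ 0)
    (hq : 3 ∣ Nat.card k - 1) (hK : IsCurveField k K) (hK' : IsCurveField k K') (a b : K)
    (hE : 4 * a ^ 3 + 27 * b ^ 2 ≠ 0)
    (ι : Type) [Fintype ι] (L : ι → Type) [∀ i, Field (L i)] [∀ i, Algebra k (L i)]
    [∀ i, Algebra K (L i)] [∀ i, IsScalarTower k K (L i)] (κ : ι → Type) [∀ i, Fintype (κ i)]
    (M : ∀ i, κ i → Type) [∀ i j, Field (M i j)] [∀ i j, Algebra k (M i j)]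
    [∀ i j, Algebra (L i) (M i j)] [∀ i j, IsScalarTower k (L i) (M i j)]
    (x : ∀ i, L i) (y : ∀ i j, M i j) (h : IsThreeDivision a b x y)
    (ι' : Type) [Fintype ι'] (L' : ι' → Type) [∀ i, Field (L' i)] [∀ i, Algebra k (L' i)]
    [∀ i, Algebra K' (L' i)] [∀ i, IsScalarTower k K' (L' i)] (κ' : ι' → Type)
    [∀ i, Fintype (κ' i)] (M' : ∀ i, κ' i → Type) [∀ i j, Field (M' i j)]
    [∀ i j, Algebra k (M' i j)] [∀ i j, Algebra (L' i) (M' i j)]
    [∀ i j, IsScalarTower k (L' i) (M' i j)] (x' : ∀ i, L' i) (y' : ∀ i j, M' i j)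
    (h' : IsThreeDivision (algebraMap K K' a) (algebraMap K K' b) x' y') :
    ∃ (PL : ι → ℤ[X]) (PM : ∀ i, κ i → ℤ[X]) (PL' : ι' → ℤ[X]) (PM' : ∀ i, κ' i → ℤ[X]),
      (∀ i, IsNumerator k (L i) (PL i)) ∧ (∀ i j, IsNumerator k (M i j) (PM i j)) ∧
      (∀ i, IsNumerator k (L' i) (PL' i)) ∧ (∀ i j, IsNumerator k (M' i j) (PM' i j)) ∧
      Conclusions k a b (threeOrder k a b L M PL PM) ∧
      Conclusions k (algebraMap K K' a) (algebraMap K K' b)
        (threeOrder k (algebraMap K K' a) (algebraMap K K' b) L' M' PL' PM') ∧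
      (∀ m : ℕ, Grows k K' a b m →
        2 * (m : ℤ) ≤ threeOrder k (algebraMap K K' a) (algebraMap K K' b) L' M' PL' PM' -
          threeOrder k a b L M PL PM) ∧
      (threeOrder k (algebraMap K K' a) (algebraMap K K' b) L' M' PL' PM' ≤
        threeOrder k a b L M PL PM + 1 → NoGrowth k K' a b) := by
  have hFF : FF.IsFF k K := ⟨hK.essFiniteType, hK.trdeg_eq_one⟩
  have hFF' : FF.IsFF k K' := ⟨hK'.essFiniteType, hK'.trdeg_eq_one⟩
  have hq3 := card_mod hq
  have hE' : 4 * algebraMap K K' a ^ 3 + 27 * algebraMap K K' b ^ 2 ≠ 0 := by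
    rw [disc_map]
    exact (_root_.map_ne_zero _).2 hE
  obtain ⟨hX, hY⟩ := fam_of h6 hE h
  obtain ⟨hX', hY'⟩ := fam_of h6 hE' h'
  have hfdL := hX.fd
  have hFFL : ∀ i, FF.IsFF k (L i) := fun i => isFF_of_finite (K := K)
  have hfdM : ∀ i j, FiniteDimensional (L i) (M i j) := fun i j => (hY i).fd j
  have hFFM : ∀ i j, FF.IsFF k (M i j) := fun i j => isFF_of_finite (K := L i)
  have hfdL' := hX'.fd
  have hFFL' : ∀ i, FF.IsFF k (L' i) := fun i => isFF_of_finite (K := K')
  have hfdM' : ∀ i j, FiniteDimensional (L' i) (M' i j) := fun i j => (hY' i).fd j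
  have hFFM' : ∀ i j, FF.IsFF k (M' i j) := fun i j => isFF_of_finite (K := L' i)
  choose PL hPL hPL1 using fun i => exists_num_rel k (L i)
  choose PM hPM hPM1 using fun i j => exists_num_rel k (M i j)
  choose PL' hPL' hPL1' using fun i => exists_num_rel k (L' i)
  choose PM' hPM' hPM1' using fun i j => exists_num_rel k (M' i j)
  obtain ⟨A, R, hA, hR, hAR, hN⟩ := exists_quot3 h6 hq3 hE h hPL hPM
  obtain ⟨A', R', hA', hR', hAR', hN'⟩ := exists_quot3 h6 hq3 hE' h' hPL' hPM'
  have hg : ∀ m : ℕ, Grows k K' a b m →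
      2 * (m : ℤ) ≤ threeOrder k (algebraMap K K' a) (algebraMap K K' b) L' M' PL' PM' -
        threeOrder k a b L M PL PM := by
    rintro m ⟨G, hG⟩
    have := compare3 hA hR hA' hR' hAR hAR' hq3 hG
    rw [← hN, ← hN']
    omega
  refine ⟨PL, PM, PL', PM',
    fun i => ⟨(S.isZetaNum_iff _).2 (hPL i), (hPL1 i).trans (by rw [S.classNumber_eq])⟩,
    fun i j => ⟨(S.isZetaNum_iff _).2 (hPM i j), (hPM1 i j).trans (by rw [S.classNumber_eq])⟩,
    fun i => ⟨(S.isZetaNum_iff _).2 (hPL' i), (hPL1' i).trans (by rw [S.classNumber_eq])⟩,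
    fun i j => ⟨(S.isZetaNum_iff _).2 (hPM' i j), (hPM1' i j).trans (by rw [S.classNumber_eq])⟩,
    concl h6 hq3 hE hA hR hAR hN, concl h6 hq3 hE' hA' hR' hAR' hN', hg, fun hle => ?_⟩
  refine noGrowth_of hE fun m hm => ?_
  have := hg m hm
  omega

end Pool.Agent.Results.MP_48b749_nt.ThreeDivisionFields
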